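import Pool.Agent.helper41.HFE.Spec

set_option autoImplicit false

open Polynomial Module Pool.Agent.HFN

namespace Pool.Agent.HFE

noncomputable section

theorem AAB_ev (z : ℂ × ℂ) : ev z (1 : AA) = 1 := by
  unfold ev
  simp [Polynomial.evalEval]

theorem AAB_La (Z : Finset (ℂ × ℂ)) : La Z 1 = 0 := by
  classical
  have h1 : nn Z 1 = 0 := by
    unfold nn
    rw [Finset.card_eq_zero, Finset.filter_eq_empty_iff]
    intro z _
    rw [AAB_ev]
    exact one_ne_zero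
  have h2 : sg Z 1 = 0 := by
    unfold sg
    rw [Finset.card_eq_zero, Finset.filter_eq_empty_iff]
    intro z _ h
    have h3 := h.1
    rw [AAB_ev] at h3
    exact one_ne_zero h3
  unfold La
  rw [h1, h2]

theorem AAB_zero (hDUA : DUA_stmt) (Z : Finset (ℂ × ℂ)) (i j : ℕ) (h : ∀ φ : AA →ₗ[ℂ] ℂ, Fu Z i j φ → φ = 0) : df Z i j = 0 := by
  have h1 := hDUA.2 Z i j h
  unfold df
  rw [h1]
  exact finrank_zero_of_subsingleton

theorem AAB_chi (i j : ℕ) : chi i j 0 0 = 0 := by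
  unfold chi
  simp

theorem AAB : AAB_stmt := by
  intro hNUM hONC hDUA hLOB hUPE hUPG Z i j
  have hp : (i + 1) / 2 ≤ i := by omega
  have hq : (j + 1) / 2 ≤ j := by omega
  refine ⟨fun f hf => hLOB Z f i j hf, ?_, ?_⟩
  · intro hlt
    by_cases h : ∀ φ : AA →ₗ[ℂ] ℂ, Fu Z i j φ → φ = 0
    · refine ⟨1, one_ne_zero, ?_, ?_⟩
      · rw [dX_one, dY_one]
        unfold CD
        omega
      · rw [dX_one, dY_one, AAB_zero hDUA Z i j h, AAB_chi]
        exact Nat.zero_le _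
    · push Not at h
      obtain ⟨φ₀, h1, h2⟩ := h
      obtain ⟨φ, f, hφ, hFu, hMn, hCD, hall⟩ := hONC Z i j (by omega) (hNUM.1 i j Z.card hlt) ⟨φ₀, h2, h1⟩
      refine ⟨f, hMn.ne, hCD, ?_⟩
      by_cases hd : 1 ≤ dX f ∧ 1 ≤ dY f
      · exact hUPG Z i j φ f hφ hFu hMn hall hd.1 hd.2
      · have h3 := hUPE Z i j _ _ φ f hφ hFu hMn hp hq hall (by omega)
        rw [h3]
        exact Nat.le_add_right _ _
  · intro hi hj hij
    obtain ⟨h4, hCDn, hTr⟩ := hNUM.2 i j Z.card hi hj hij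
    by_cases h : ∀ φ : AA →ₗ[ℂ] ℂ, Fu Z i j φ → φ = 0
    · refine ⟨1, one_ne_zero, ?_, ?_, ?_⟩
      · rw [dX_one, dY_one]
        unfold CD
        omega
      · left
        rw [dX_one]
        exact Nat.zero_le _
      · rw [dX_one, dY_one, AAB_zero hDUA Z i j h, AAB_chi, AAB_La]
    · push Not at h
      obtain ⟨φ₀, h1, h2⟩ := h
      obtain ⟨φ, f, hφ, hFu, hMn, hCD, hall⟩ := hONC Z i j h4 hTr ⟨φ₀, h2, h1⟩
      exact ⟨f, hMn.ne, hCD, hCDn _ _ hCD, hUPE Z i j _ _ φ f hφ hFu hMn hp hq hall (hCDn _ _ hCD)⟩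

end

end Pool.Agent.HFE
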