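import Pool.Agent.helper41.HFE.SpecD

set_option autoImplicit false

open Polynomial Module Pool.Agent.HFN

namespace Pool.Agent.HFE

noncomputable section

open Pool.Agent.helper29.JZ

/-- the best multiplicity of a line with `r` points -/
def ADF_e (i r : ℕ) : Fin 3 := if 2 * r ≤ i + 1 then 0 else if r ≤ i + 1 then 1 else 2

theorem ADF_term (i r : ℕ) : r * ph (ADF_e i r : ℕ) = (i + 1) * (ADF_e i r : ℕ) + max (2 * r - (i + 1)) (3 * r - 2 * (i + 1)) := by
  unfold ADF_e ph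
  split_ifs with h1 h2
  all_goals simp at *
  all_goals omega

theorem ADF_chi0 (i j n : ℕ) : chi i j 0 n ≤ (i + 1) * n := by
  unfold chi
  rw [Nat.sub_zero]
  have h1 : (i + 1) * (j + 1) ≤ (i + 1) * ((j + 1 - n) + n) := Nat.mul_le_mul_left _ (by omega)
  have h2 : (i + 1) * ((j + 1 - n) + n) = (i + 1) * (j + 1 - n) + (i + 1) * n := mul_add _ _ _
  rw [h2] at h1
  exact Nat.sub_le_iff_le_add'.2 h1

theorem ADF_chi1 (i j n : ℕ) : chi i j n 0 ≤ (j + 1) * n := by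
  unfold chi
  rw [Nat.sub_zero]
  have h1 : (i + 1) * (j + 1) ≤ ((i + 1 - n) + n) * (j + 1) := Nat.mul_le_mul_right _ (by omega)
  have h2 : ((i + 1 - n) + n) * (j + 1) = (i + 1 - n) * (j + 1) + n * (j + 1) := add_mul _ _ _
  rw [h2] at h1
  rw [mul_comm (j + 1) n]
  exact Nat.sub_le_iff_le_add'.2 h1

theorem ADF_row {h h' : ℕ} (M W : Finset (Fin h × Fin h')) (e : Fin h' → ℕ) :
    Lm M W 0 (fun _ => 0) e = ∑ m, row M m * ph (e m) := by
  unfold Lm row
  have h1 : ∀ p ∈ M, ph ((if p ∈ W then 0 else 0) + 0 + e p.2) = ph (e p.2) := by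
    intro p _
    rw [ite_self, zero_add, zero_add]
  rw [Finset.sum_congr rfl h1, ← Finset.sum_fiberwise M (fun p => p.2)]
  refine Finset.sum_congr rfl fun m _ => ?_
  have h2 : ∀ p ∈ M.filter (fun p => p.2 = m), ph (e p.2) = ph (e m) := by
    intro p hp
    rw [(Finset.mem_filter.1 hp).2]
  rw [Finset.sum_congr rfl h2, Finset.sum_const, smul_eq_mul]

theorem ADF_col {h h' : ℕ} (M W : Finset (Fin h × Fin h')) (e : Fin h → ℕ) :
    Lm M W 0 e (fun _ => 0) = ∑ k, col M k * ph (e k) := by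
  unfold Lm col
  have h1 : ∀ p ∈ M, ph ((if p ∈ W then 0 else 0) + e p.1 + 0) = ph (e p.1) := by
    intro p _
    rw [ite_self, zero_add, add_zero]
  rw [Finset.sum_congr rfl h1, ← Finset.sum_fiberwise M (fun p => p.1)]
  refine Finset.sum_congr rfl fun m _ => ?_
  have h2 : ∀ p ∈ M.filter (fun p => p.1 = m), ph (e p.1) = ph (e m) := by
    intro p hp
    rw [(Finset.mem_filter.1 hp).2]
  rw [Finset.sum_congr rfl h2, Finset.sum_const, smul_eq_mul]

theorem ADF : ADF_stmt := by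
  intro h h' M W a b i j
  constructor
  · have h1 : Lm M W ((0 : Fin 2) : ℕ) (fun _ => ((0 : Fin 3) : ℕ)) (fun m => (ADF_e i (row M m) : ℕ)) -
        chi i j (((0 : Fin 2) : ℕ) * a + ∑ _k : Fin h, ((0 : Fin 3) : ℕ)) (((0 : Fin 2) : ℕ) * b + ∑ m, (ADF_e i (row M m) : ℕ)) ≤ Df M W a b i j :=
      Finset.le_sup (f := fun q : Fin 2 × (Fin h → Fin 3) × (Fin h' → Fin 3) =>
        Lm M W q.1 (fun k => q.2.1 k) (fun m => q.2.2 m) - chi i j (q.1 * a + ∑ k, (q.2.1 k : ℕ)) (q.1 * b + ∑ m, (q.2.2 m : ℕ)))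
        (Finset.mem_univ ((0 : Fin 2), (fun _ => (0 : Fin 3)), fun m => ADF_e i (row M m)))
    refine le_trans ?_ h1
    have e0 : ((0 : Fin 2) : ℕ) = 0 := rfl
    have e1 : ((0 : Fin 3) : ℕ) = 0 := rfl
    rw [e0, e1, zero_mul, zero_mul, Finset.sum_const_zero, zero_add, zero_add, ADF_row]
    have h2 : ∑ m, row M m * ph (ADF_e i (row M m) : ℕ) = (i + 1) * ∑ m, (ADF_e i (row M m) : ℕ) + AM M i := by
      rw [Finset.sum_congr rfl fun m _ => ADF_term i (row M m), Finset.sum_add_distrib, ← Finset.mul_sum]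
      rfl
    rw [h2]
    have h3 := ADF_chi0 i j (∑ m, (ADF_e i (row M m) : ℕ))
    omega
  · have h1 : Lm M W ((0 : Fin 2) : ℕ) (fun k => (ADF_e j (col M k) : ℕ)) (fun _ => ((0 : Fin 3) : ℕ)) -
        chi i j (((0 : Fin 2) : ℕ) * a + ∑ k, (ADF_e j (col M k) : ℕ)) (((0 : Fin 2) : ℕ) * b + ∑ _m : Fin h', ((0 : Fin 3) : ℕ)) ≤ Df M W a b i j :=
      Finset.le_sup (f := fun q : Fin 2 × (Fin h → Fin 3) × (Fin h' → Fin 3) =>
        Lm M W q.1 (fun k => q.2.1 k) (fun m => q.2.2 m) - chi i j (q.1 * a + ∑ k, (q.2.1 k : ℕ)) (q.1 * b + ∑ m, (q.2.2 m : ℕ)))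
        (Finset.mem_univ ((0 : Fin 2), (fun k => ADF_e j (col M k)), fun _ => (0 : Fin 3)))
    refine le_trans ?_ h1
    have e0 : ((0 : Fin 2) : ℕ) = 0 := rfl
    have e1 : ((0 : Fin 3) : ℕ) = 0 := rfl
    rw [e0, e1, zero_mul, zero_mul, Finset.sum_const_zero, zero_add, zero_add, ADF_col]
    have h2 : ∑ k, col M k * ph (ADF_e j (col M k) : ℕ) = (j + 1) * ∑ k, (ADF_e j (col M k) : ℕ) + BM M j := by
      rw [Finset.sum_congr rfl fun m _ => ADF_term j (col M m), Finset.sum_add_distrib, ← Finset.mul_sum]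
      rfl
    rw [h2]
    have h3 := ADF_chi1 i j (∑ k, (ADF_e j (col M k) : ℕ))
    omega

end

end Pool.Agent.HFE
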