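import Pool.Agent.helper41.HFE.Spec
import Pool.Agent.helper16.HFN.AFF

set_option autoImplicit false

open Polynomial Module Pool.Agent.HFN

namespace Pool.Agent.HFE

noncomputable section

open Pool.Agent.helper97.FP

theorem AFX_ev (i j : ℕ) (v : FP97.VV i j) (z : ℂ × ℂ) :
    Pool.Agent.HFN.ev z (mk i j v) = ∑ p, v p * (z.1 ^ (p.1 : ℕ) * z.2 ^ (p.2 : ℕ)) := by
  rw [AFF_mk, ev_sum]
  simp only [AFF_ev_mon]

theorem AFX_pt {t s : ℂ} {P : Point} (hg : FP97.Good t s P) (i j : ℕ) (v : FP97.VV i j) :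
    FP97.Th t s i j v ∈ idealPoint P ↔ ∑ p, v p * ((FP97.aff t s P).1 ^ (p.1 : ℕ) * (FP97.aff t s P).2 ^ (p.2 : ℕ)) = 0 := by
  set α := (FP97.aff t s P).1 with hα
  set β := (FP97.aff t s P).2 with hβ
  have hα1 : P.1.rep 1 = (P.1.rep 0 + t * P.1.rep 1) * α := by
    rw [hα]; show _ = _ * (P.1.rep 1 / (P.1.rep 0 + t * P.1.rep 1))
    rw [mul_div_cancel₀ _ hg.1]
  have hβ1 : P.2.rep 1 = (P.2.rep 0 + s * P.2.rep 1) * β := by
    rw [hβ]; show _ = _ * (P.2.rep 1 / (P.2.rep 0 + s * P.2.rep 1))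
    rw [mul_div_cancel₀ _ hg.2]
  constructor
  · intro h
    have h1 : idealPoint P ≤ RingHom.ker (FP97.ev t s α β : FP97.R4 →ₐ[ℂ] ℂ).toRingHom := by
      rw [idealPoint, Ideal.span_le]
      intro F hF
      rcases hF with rfl | rfl
      · show (FP97.ev t s α β : FP97.R4 →ₐ[ℂ] ℂ) _ = 0
        rw [map_sub, map_mul, map_mul, FP97.ev_X0, FP97.ev_X1, FP97.ev_C, FP97.ev_C]
        simp only [Algebra.algebraMap_self, RingHom.id_apply]
        linear_combination hα1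
      · show (FP97.ev t s α β : FP97.R4 →ₐ[ℂ] ℂ) _ = 0
        rw [map_sub, map_mul, map_mul, FP97.ev_X2, FP97.ev_X3, FP97.ev_C, FP97.ev_C]
        simp only [Algebra.algebraMap_self, RingHom.id_apply]
        linear_combination hβ1
    have h2 : (FP97.ev t s α β : FP97.R4 →ₐ[ℂ] ℂ) (FP97.Th t s i j v) = 0 := h1 h
    rw [FP97.ev_Th] at h2
    exact h2
  · intro h
    let π : FP97.R4 →ₐ[ℂ] (FP97.R4 ⧸ idealPoint P) := Ideal.Quotient.mkₐ ℂ (idealPoint P)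
    have hπ : ∀ F, π F = 0 ↔ F ∈ idealPoint P := fun F => Ideal.Quotient.eq_zero_iff_mem
    have e1 : π (MvPolynomial.X 1) = algebraMap ℂ _ α * π (FP97.m1 t) := by
      have h1 := (hπ _).2 (FP97.L1_mem hg)
      rw [map_sub, map_mul] at h1
      have h2 : π (MvPolynomial.C (FP97.aff t s P).1) = algebraMap ℂ _ (FP97.aff t s P).1 := π.commutes _
      rw [h2] at h1
      exact sub_eq_zero.1 h1
    have e2 : π (MvPolynomial.X 3) = algebraMap ℂ _ β * π (FP97.m2 s) := by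
      have h1 := (hπ _).2 (FP97.L2_mem hg)
      rw [map_sub, map_mul] at h1
      have h2 : π (MvPolynomial.C (FP97.aff t s P).2) = algebraMap ℂ _ (FP97.aff t s P).2 := π.commutes _
      rw [h2] at h1
      exact sub_eq_zero.1 h1
    rw [← hπ, FP97.Th_apply, map_sum]
    have key : ∀ p : Fin (i+1) × Fin (j+1), π (MvPolynomial.C (v p) *
        ((MvPolynomial.X 1 ^ (p.1 : ℕ) * FP97.m1 t ^ (i - (p.1 : ℕ))) *
        (MvPolynomial.X 3 ^ (p.2 : ℕ) * FP97.m2 s ^ (j - (p.2 : ℕ))))) =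
        algebraMap ℂ _ (v p * (α ^ (p.1 : ℕ) * β ^ (p.2 : ℕ))) * (π (FP97.m1 t) ^ i * π (FP97.m2 s) ^ j) := by
      intro p
      have hp1 : (p.1 : ℕ) + (i - (p.1 : ℕ)) = i := by omega
      have hp2 : (p.2 : ℕ) + (j - (p.2 : ℕ)) = j := by omega
      have hc : π (MvPolynomial.C (v p)) = algebraMap ℂ _ (v p) := π.commutes (v p)
      rw [map_mul, map_mul, map_mul, map_mul, map_pow, map_pow, map_pow, map_pow, hc, e1, e2]
      have e3 : π (FP97.m1 t) ^ i = π (FP97.m1 t) ^ (p.1 : ℕ) * π (FP97.m1 t) ^ (i - (p.1 : ℕ)) := by rw [← pow_add, hp1]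
      have e4 : π (FP97.m2 s) ^ j = π (FP97.m2 s) ^ (p.2 : ℕ) * π (FP97.m2 s) ^ (j - (p.2 : ℕ)) := by rw [← pow_add, hp2]
      rw [e3, e4]
      simp only [map_mul, map_pow, mul_pow]
      ring
    rw [Finset.sum_congr rfl fun p _ => key p, ← Finset.sum_mul, ← map_sum, h, map_zero, zero_mul]

theorem AFX_ln {t s : ℂ} {Y : Finset Point} (hg : ∀ P ∈ Y, FP97.Good t s P) (a b : ℕ) (v : FP97.VV a b)
    {Z : Finset (ℂ × ℂ)} (hZ : ∀ z, z ∈ Z ↔ ∃ P ∈ Y, FP97.aff t s P = z) : ln Y (FP97.Th t s a b v) = La Z (mk a b v) := by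
  classical
  have hinj : ∀ P ∈ Y, ∀ Q ∈ Y, FP97.aff t s P = FP97.aff t s Q → P = Q := fun P hP Q hQ h => FP97.aff_inj (hg P hP) (hg Q hQ) h
  have h1 : ∀ P ∈ Y, (FP97.Th t s a b v ∈ idealPoint P ↔ Pool.Agent.HFN.ev (FP97.aff t s P) (mk a b v) = 0) := by
    intro P hP
    rw [AFX_pt (hg P hP), AFX_ev]
  have h2 : ∀ P ∈ Y, (FP97.Th t s a b v ∈ idealPoint P ^ 2 ↔ Db (FP97.aff t s P) (mk a b v)) := by
    intro P hP
    rw [FP97.mem_iff_Dbl (hg P hP), AFF_Dbl]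
  unfold ln La nn sg
  congr 1
  · congr 1
    refine Finset.card_bij (fun P _ => FP97.aff t s P) ?_ ?_ ?_
    · intro P hP
      rw [Finset.mem_filter] at hP ⊢
      exact ⟨(hZ _).2 ⟨P, hP.1, rfl⟩, (h1 P hP.1).1 hP.2⟩
    · intro P hP Q hQ h
      exact hinj P (Finset.mem_filter.1 hP).1 Q (Finset.mem_filter.1 hQ).1 h
    · intro z hz
      rw [Finset.mem_filter] at hz
      obtain ⟨P, hP, rfl⟩ := (hZ _).1 hz.1
      exact ⟨P, Finset.mem_filter.2 ⟨hP, (h1 P hP).2 hz.2⟩, rfl⟩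
  · refine Finset.card_bij (fun P _ => FP97.aff t s P) ?_ ?_ ?_
    · intro P hP
      rw [Finset.mem_filter] at hP ⊢
      exact ⟨(hZ _).2 ⟨P, hP.1, rfl⟩, (h2 P hP.1).1 hP.2⟩
    · intro P hP Q hQ h
      exact hinj P (Finset.mem_filter.1 hP).1 Q (Finset.mem_filter.1 hQ).1 h
    · intro z hz
      rw [Finset.mem_filter] at hz
      obtain ⟨P, hP, rfl⟩ := (hZ _).1 hz.1
      exact ⟨P, Finset.mem_filter.2 ⟨hP, (h2 P hP).2 hz.2⟩, rfl⟩

theorem AFX : AFX_stmt := by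
  classical
  intro Y
  obtain ⟨t, s, hg⟩ := FP97.exists_good Y
  have hZ : ∀ z, z ∈ Y.image (FP97.aff t s) ↔ ∃ P ∈ Y, FP97.aff t s P = z := fun z => Finset.mem_image
  refine ⟨Y.image (FP97.aff t s), ?_, fun i j => ?_, fun a b => ⟨?_, ?_⟩⟩
  · refine Finset.card_image_of_injOn ?_
    intro P hP Q hQ h
    exact FP97.aff_inj (hg P hP) (hg Q hQ) h
  · have hset : {z | ∃ P ∈ Y, FP97.aff t s P = z} = ((Y.image (FP97.aff t s) : Finset (ℂ × ℂ)) : Set (ℂ × ℂ)) := by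
      ext z
      simp
    rw [FP97.hilbert_eq_DV hg, hset]
    exact AFF_HH _ i j
  · intro F hF hF0
    rw [← FP97.range_Th t s a b] at hF
    obtain ⟨v, rfl⟩ := hF
    refine ⟨mk a b v, mk_mem a b v, ?_, AFX_ln hg a b v hZ⟩
    intro h
    apply hF0
    have h1 : v = 0 := mk_injective a b (by rw [h, map_zero])
    rw [h1, map_zero]
  · intro f hf hf0
    rw [← mk_range] at hf
    obtain ⟨v, rfl⟩ := hf
    refine ⟨FP97.Th t s a b v, FP97.Th_mem t s a b v, ?_, AFX_ln hg a b v hZ⟩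
    intro h
    apply hf0
    have h1 : v = 0 := FP97.Th_injective t s a b (by rw [h, map_zero])
    rw [h1, map_zero]

end

end Pool.Agent.HFE
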