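import Pool.Agent.helper41.HFE.SpecD

set_option autoImplicit false

open Polynomial Module Pool.Agent.HFN

namespace Pool.Agent.HFE

noncomputable section

theorem COR_two {i r : ℕ} (hr : 1 ≤ r) (h : 25 * r ≤ i * i) : 2 ≤ i := by
  by_contra hlt
  have h1 : i ≤ 1 := by omega
  have h2 : i * i ≤ 1 * 1 := Nat.mul_le_mul h1 h1
  omega

theorem COR : COR_stmt := by
  intro hAff hTRM hX hY h h' x y M W a b hx hy hcol hrow hM hB i j hOm
  have hcard := (hTRM h h' x y M hx hy hcol hrow hM).1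
  obtain ⟨f, hf0, hCD, hor, heq⟩ := (hAff (Pool.Agent.helper29.JZ.ZZ x y M) i j).2.2 (COR_two hM hOm.2.1) (COR_two hM hOm.2.2) (by rw [hcard]; exact hOm.1)
  have hCD1 := hCD.1
  have hCD2 := hCD.2.1
  rcases hor with hd | hd
  · have h1 := hX h h' x y M W a b hx hy hcol hrow hM hB i j hOm f hf0 hd (by omega)
    omega
  · have h1 := hY h h' x y M W a b hx hy hcol hrow hM hB i j hOm f hf0 hd (by omega)
    omega

end

end Pool.Agent.HFE
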